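import Pool.Agent.helper67.TPD.Spec

/-! # MP_ebc808_nt, row tpd:EVW -/

set_option autoImplicit false

open Finset PowerSeries

noncomputable section

namespace Pool.Agent.TPD

open Pool.Agent.EP Pool.Agent.PQ

theorem EVW_cop (w k : ℕ) : (12 * w + k).Coprime 6 ↔ k.Coprime 6 := by
  have h : 12 * w + k = k + 6 * (2 * w) := by ring
  rw [h]
  exact Nat.coprime_add_mul_left_left k 6 (2 * w)

theorem EVW_count (w : ℕ) : #{u ∈ range (12 * w) | u.Coprime 6} = 4 * w := by
  rw [← Nat.count_eq_card_filter_range]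
  induction w with
  | zero => rfl
  | succ w ih =>
    have h1 : 12 * (w + 1) = 12 * w + 12 := by ring
    rw [h1, Nat.count_add, ih]
    have h2 : Nat.count (fun k => (12 * w + k).Coprime 6) 12 = Nat.count (fun k => k.Coprime 6) 12 := by
      rw [Nat.count_eq_card_filter_range, Nat.count_eq_card_filter_range]
      congr 1
      apply Finset.filter_congr
      intro k _
      exact EVW_cop w k
    have h3 : Nat.count (fun k => k.Coprime 6) 12 = 4 := by decide
    rw [h2, h3]
    ring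

/-- EVW -/
theorem EVW : EVW_stmt := by
  intro b N h
  have h1 : uB b N = {u ∈ range (Nat.sqrt (N / 2 ^ b) + 1) | u.Coprime 6} := by
    ext u
    unfold uB
    rw [mem_filter, mem_filter, mem_range, mem_range]
    have hB : 0 < 2 ^ b := by positivity
    have h2 : 2 ^ b * u ^ 2 ≤ N ↔ u < Nat.sqrt (N / 2 ^ b) + 1 := by
      rw [Nat.lt_succ_iff, Nat.le_sqrt', Nat.le_div_iff_mul_le hB, mul_comm]
    constructor
    · rintro ⟨-, h3, h4⟩
      exact ⟨h2.1 h4, h3⟩
    · rintro ⟨h3, h4⟩
      have h5 := h2.2 h3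
      refine ⟨?_, h4, h5⟩
      have h6 : u ^ 2 ≤ 2 ^ b * u ^ 2 := Nat.le_mul_of_pos_left _ hB
      have h7 : u ≤ u ^ 2 := Nat.le_self_pow two_ne_zero u
      omega
  obtain ⟨w, hw⟩ := Nat.dvd_of_mod_eq_zero h
  rw [h1, hw, EVW_count]
  exact ⟨2 * w, by ring⟩

end Pool.Agent.TPD
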